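import Mathlib
import Pool.Prelude.Def_H_e9e0c647

/-!
# The separation problem of the partitionable graph inequalities: definitions
-/

namespace Pool.Agent.PartSep

/-- A finite graph `H` is *partitionable*: there are integers `a, w ≥ 2` with `|V(H)| = a * w + 1`
such that for every vertex `v` the graph `H - v` can be partitioned into `a` cliques of size `w`
(the classes of a labelling `c : V → Fin a`) and also into `w` stable sets of size `a`
(the classes of a labelling `c : V → Fin w`). -/
def IsPartitionable {V : Type} [Fintype V] [DecidableEq V] (H : SimpleGraph V) : Prop :=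
  ∃ a w : ℕ, 2 ≤ a ∧ 2 ≤ w ∧ Fintype.card V = a * w + 1 ∧
    ∀ v : V,
      (∃ c : V → Fin a, ∀ i, H.IsNClique w (Finset.univ.filter fun u => u ≠ v ∧ c u = i)) ∧
      (∃ c : V → Fin w, ∀ i, H.IsNIndepSet a (Finset.univ.filter fun u => u ≠ v ∧ c u = i))

/-- An input of the separation problem: a graph `G` on the vertices `0, …, n - 1` and a rational
vector `x ∈ [0,1]^V`. -/
structure SepInstance where
  n : ℕ
  G : SimpleGraph (Fin n)
  x : Fin n → ℚ
  x_mem : ∀ v, 0 ≤ x v ∧ x v ≤ 1

/-- `I` gives a violated partitionable graph inequality of the instance: the induced subgraph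
`G[I]` is partitionable and `∑_{v ∈ I} x_v > α(G[I])`. -/
def SepInstance.Violates (s : SepInstance) (I : Finset (Fin s.n)) : Prop :=
  IsPartitionable (s.G.induce (I : Set (Fin s.n))) ∧
    ((s.G.induce (I : Set (Fin s.n))).indepNum : ℚ) < ∑ v ∈ I, s.x v

open Classical in
/-- The code of an instance of the separation problem as a bit string: the code of the list of the
rows of the adjacency matrix, each together with the weight `x_v` of its vertex. The codes of
lists, pairs and rational numbers are those of `Pool.Prelude`. -/
noncomputable def encodeInstance (s : SepInstance) : List Bool :=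
  N487b59b3.bitEncode (List.ofFn fun i => (List.ofFn fun j => decide (s.G.Adj i j), s.x i))

/-- A literal: a variable (an element of `ν`) and a sign. -/
abbrev Lit (ν : Type) := ν × Bool

/-- A formula in conjunctive normal form: the list of its clauses, each a list of literals. -/
abbrev CNF (ν : Type) := List (List (Lit ν))

/-- The formula has a satisfying truth assignment. -/
def CNF.Satisfiable {ν : Type} (φ : CNF ν) : Prop :=
  ∃ τ : ν → Bool, ∀ c ∈ φ, ∃ l ∈ c, τ l.1 = l.2

end Pool.Agent.PartSep
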