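import Pool.Agent.Lib_MP_42fe4d_lc.Sound

namespace Pool.Agent.PartSep

/-- position of layer `b` after layer `p` on the cycle of length `N` -/
def rel (N p b : ℕ) : ℕ := if p < b then b - p - 1 else b + N - p - 1

/-- the layer at position `t` after layer `p` -/
def unrel (N p t : ℕ) : ℕ := if p + 1 + t < N then p + 1 + t else p + 1 + t - N

theorem unrel_lt {N p t : ℕ} (hp : p < N) (ht : t < N - 1) : unrel N p t < N := by
  unfold unrel; split_ifs <;> omega

theorem unrel_ne {N p t : ℕ} (hp : p < N) (ht : t < N - 1) : unrel N p t ≠ p := by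
  unfold unrel; split_ifs <;> omega

theorem rel_unrel {N p t : ℕ} (hp : p < N) (ht : t < N - 1) : rel N p (unrel N p t) = t := by
  unfold unrel rel; split_ifs <;> omega

theorem unrel_rel {N p b : ℕ} (hp : p < N) (hb : b < N) (hne : b ≠ p) :
    unrel N p (rel N p b) = b := by
  unfold unrel rel; split_ifs <;> omega

theorem rel_lt {N p b : ℕ} (hp : p < N) (hb : b < N) (hne : b ≠ p) : rel N p b < N - 1 := by
  unfold rel; split_ifs <;> omega

theorem strip_of_rel {N p s t : ℕ} (hN : 7 ≤ N) (hp : p < N) (hs : s < t) (hst : t ≤ s + 2)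
    (ht : t < N - 1) : Strip N (unrel N p s) (unrel N p t) := by
  unfold unrel Strip; split_ifs <;> omega

theorem not_strip_of_rel {N p b b' : ℕ} {M : ℕ} (hN : N = 6 * M + 7) (hp : p < N)
    (hb : b < N) (hb' : b' < N) (hne : b ≠ p) (hne' : b' ≠ p)
    (hmod : rel N p b % 3 = rel N p b' % 3) : ¬ Strip N b b' := by
  unfold rel at hmod
  unfold Strip
  split_ifs at hmod <;> omega

variable {V : Type} {G : SimpleGraph V} {M : ℕ} {lay : V → ℕ} {conf : V → V → Prop}
variable [Fintype V] [DecidableEq V]

theorem Layered.card_eq (h : Layered G M lay conf)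
    (inj : ∀ u v, lay u = lay v → u = v) (ex : ∀ t, t < 6 * M + 7 → ∃ u, lay u = t) :
    Fintype.card V = (2 * M + 2) * 3 + 1 := by
  have : Fintype.card V = (Finset.range (6 * M + 7)).card := by
    rw [← Finset.card_univ]
    apply Finset.card_bij (fun u _ => lay u)
    · intro u _
      simpa using h.lay_lt u
    · intro u _ v _ e
      exact inj u v e
    · intro t ht
      obtain ⟨u, hu⟩ := ex t (by simpa using ht)
      exact ⟨u, Finset.mem_univ _, hu⟩
  rw [this, Finset.card_range]
  ring

/-- Completeness of the construction: a layered graph with exactly one vertex in each layer and no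
conflict edge is partitionable. -/
theorem Layered.complete (h : Layered G M lay conf)
    (inj : ∀ u v, lay u = lay v → u = v) (ex : ∀ t, t < 6 * M + 7 → ∃ u, lay u = t)
    (noconf : ∀ u v, ¬ conf u v) :
    (∀ v : V,
      (∃ c : V → Fin (2 * M + 2),
        ∀ i, G.IsNClique 3 (Finset.univ.filter fun u => u ≠ v ∧ c u = i)) ∧
      (∃ c : V → Fin 3,
        ∀ i, G.IsNIndepSet (2 * M + 2) (Finset.univ.filter fun u => u ≠ v ∧ c u = i))) := by
  have hV : Nonempty V := by
    rw [← Fintype.card_pos_iff, h.card_eq inj ex]; omega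
  choose! g hg using ex
  have adj : ∀ u v, G.Adj u v ↔ Strip (6 * M + 7) (lay u) (lay v) := by
    intro u v
    rw [h.adj_iff]
    simp [noconf u v]
  intro v
  set p := lay v with hp
  have hpN : p < 6 * M + 7 := h.lay_lt v
  set r : V → ℕ := fun u => rel (6 * M + 7) p (lay u) with hr
  have hlay : ∀ u, u ≠ v → lay u ≠ p := fun u hu e => hu (inj u v e)
  have hrlt : ∀ u, u ≠ v → r u < 6 * M + 6 := fun u hu =>
    rel_lt hpN (h.lay_lt u) (hlay u hu)
  set q : ℕ → V := fun t => g (unrel (6 * M + 7) p t) with hq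
  have hqlay : ∀ t, t < 6 * M + 6 → lay (q t) = unrel (6 * M + 7) p t := fun t ht =>
    hg _ (unrel_lt hpN ht)
  have hqne : ∀ t, t < 6 * M + 6 → q t ≠ v := by
    intro t ht e
    have := hqlay t ht
    rw [e] at this
    exact unrel_ne hpN ht this.symm
  have hrq : ∀ t, t < 6 * M + 6 → r (q t) = t := by
    intro t ht
    simp only [hr]
    rw [hqlay t ht]
    exact rel_unrel hpN ht
  have hqr : ∀ u, u ≠ v → q (r u) = u := by
    intro u hu
    apply inj
    rw [hqlay _ (hrlt u hu)]
    exact unrel_rel hpN (h.lay_lt u) (hlay u hu)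
  refine ⟨⟨fun u => ⟨(r u / 3) % (2 * M + 2), Nat.mod_lt _ (by omega)⟩, ?_⟩,
    ⟨fun u => ⟨r u % 3, Nat.mod_lt _ (by omega)⟩, ?_⟩⟩
  · rintro ⟨i, hi⟩
    rw [SimpleGraph.is3Clique_iff]
    refine ⟨q (3 * i), q (3 * i + 1), q (3 * i + 2), ?_, ?_, ?_, ?_⟩
    · rw [adj, hqlay _ (by omega), hqlay _ (by omega)]
      exact strip_of_rel (by omega) hpN (by omega) (by omega) (by omega)
    · rw [adj, hqlay _ (by omega), hqlay _ (by omega)]
      exact strip_of_rel (by omega) hpN (by omega) (by omega) (by omega)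
    · rw [adj, hqlay _ (by omega), hqlay _ (by omega)]
      exact strip_of_rel (by omega) hpN (by omega) (by omega) (by omega)
    · ext u
      simp only [Finset.mem_filter, Finset.mem_univ, true_and, Finset.mem_insert,
        Finset.mem_singleton, Fin.mk.injEq]
      constructor
      · rintro ⟨hu, hmod⟩
        have h1 := hrlt u hu
        have h2 : (r u / 3) % (2 * M + 2) = r u / 3 := Nat.mod_eq_of_lt (by omega)
        rw [h2] at hmod
        have h3 : r u = 3 * i ∨ r u = 3 * i + 1 ∨ r u = 3 * i + 2 := by omega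
        rw [← hqr u hu]
        rcases h3 with h3 | h3 | h3 <;> simp [h3]
      · intro hu
        have : ∃ t, t < 6 * M + 6 ∧ t / 3 = i ∧ u = q t := by
          rcases hu with hu | hu | hu
          · exact ⟨3 * i, by omega, by omega, hu⟩
          · exact ⟨3 * i + 1, by omega, by omega, hu⟩
          · exact ⟨3 * i + 2, by omega, by omega, hu⟩
        obtain ⟨t, ht, hti, rfl⟩ := this
        refine ⟨hqne t ht, ?_⟩
        rw [hrq t ht, hti]
        exact Nat.mod_eq_of_lt hi
  · rintro ⟨i, hi⟩
    constructor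
    · intro x hx y hy hxy
      simp only [Finset.coe_filter, Finset.mem_univ, true_and, Set.mem_setOf_eq,
        Fin.mk.injEq] at hx hy
      rw [adj]
      exact not_strip_of_rel rfl hpN (h.lay_lt x) (h.lay_lt y) (hlay x hx.1) (hlay y hy.1)
        (hx.2.trans hy.2.symm)
    · have e : (Finset.univ.filter fun u => u ≠ v ∧
          (⟨r u % 3, Nat.mod_lt _ (by omega)⟩ : Fin 3) = ⟨i, hi⟩) =
          (Finset.range (2 * M + 2)).image (fun k => q (3 * k + i)) := by
        ext u
        simp only [Finset.mem_filter, Finset.mem_univ, true_and, Finset.mem_image,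
          Finset.mem_range, Fin.mk.injEq]
        constructor
        · rintro ⟨hu, hmod⟩
          have h1 := hrlt u hu
          refine ⟨r u / 3, by omega, ?_⟩
          have h2 : 3 * (r u / 3) + i = r u := by omega
          rw [h2, hqr u hu]
        · rintro ⟨k, hk, rfl⟩
          refine ⟨hqne _ (by omega), ?_⟩
          rw [hrq _ (by omega)]
          omega
      rw [e, Finset.card_image_of_injOn, Finset.card_range]
      intro k hk k' hk' ekk
      simp only [Finset.coe_range, Set.mem_Iio] at hk hk'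
      have h1 := hrq (3 * k + i) (by omega)
      have h2 := hrq (3 * k' + i) (by omega)
      simp only at ekk
      rw [ekk] at h1
      omega

/-- In a partitionable graph, the stability number is at most the number of cliques. -/
theorem indepNum_le_of_part {a w : ℕ} (hw : 2 ≤ w) (ha : 2 ≤ a)
    (hK : ∀ v : V, ∃ c : V → Fin a,
      ∀ i, G.IsNClique w (Finset.univ.filter fun u => u ≠ v ∧ c u = i))
    [Nonempty V] : G.indepNum ≤ a := by
  obtain ⟨S, hS⟩ := G.exists_isNIndepSet_indepNum
  rw [← hS.card_eq]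
  have hex : ∃ v, v ∉ S := by
    by_contra hcon
    push Not at hcon
    obtain ⟨v0⟩ := (inferInstance : Nonempty V)
    obtain ⟨c, hc⟩ := hK v0
    have h1 := hc ⟨0, by omega⟩
    have h2 : 1 < (Finset.univ.filter fun u => u ≠ v0 ∧ c u = ⟨0, by omega⟩).card := by
      rw [h1.card_eq]; omega
    obtain ⟨x, hx, y, hy, hxy⟩ := Finset.one_lt_card.1 h2
    have hadj := h1.isClique (Finset.mem_coe.2 hx) (Finset.mem_coe.2 hy) hxy
    exact hS.isIndepSet (Finset.mem_coe.2 (hcon x)) (Finset.mem_coe.2 (hcon y)) hxy hadj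
  obtain ⟨v, hv⟩ := hex
  obtain ⟨c, hc⟩ := hK v
  have hinj : Set.InjOn c (S : Set V) := by
    intro x hx y hy e
    by_contra hne
    have hx' : x ≠ v := fun e => hv (e ▸ hx)
    have hy' : y ≠ v := fun e => hv (e ▸ hy)
    exact same_of_clique hc hx' hy' hne (hS.isIndepSet hx hy hne) e
  have := Finset.card_le_card_of_injOn (s := S) (t := Finset.univ) c (fun _ _ => by simp) hinj
  simpa using this

theorem le_indepNum_of_part {a w : ℕ} (hw : 2 ≤ w)
    (hS : ∀ v : V, ∃ c : V → Fin w,
      ∀ i, G.IsNIndepSet a (Finset.univ.filter fun u => u ≠ v ∧ c u = i))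
    [Nonempty V] : a ≤ G.indepNum := by
  obtain ⟨v0⟩ := (inferInstance : Nonempty V)
  obtain ⟨c, hc⟩ := hS v0
  have h1 := hc ⟨0, by omega⟩
  rw [← h1.card_eq]
  exact h1.isIndepSet.card_le_indepNum

end Pool.Agent.PartSep
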