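import Pool.Agent.Lib_MP_42fe4d_lc.Sat

namespace Pool.Agent.PartSep

variable {ν : Type}

theorem red_cliqueFree (φ : CNF ν) : (red φ).G.CliqueFree 4 :=
  (redGraph_layered φ).cliqueFree

theorem goodSel_of_violates {φ : CNF ν} {I : Finset (Fin (verts φ).length)}
    (h : (red φ).Violates I) : GoodSel φ I := by
  classical
  obtain ⟨⟨a, w, ha, hw, hcard, hpart⟩, hlt⟩ := h
  change Fintype.card ((I : Set (Fin (verts φ).length)) : Type) = a * w + 1 at hcard
  have hIcard : I.card = a * w + 1 := by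
    rw [← hcard]
    simp
  have hne : Nonempty ((I : Set (Fin (verts φ).length)) : Type) := by
    rw [← Fintype.card_pos_iff, hcard]; omega
  have hL := (redGraph_layered φ).induce (I : Set (Fin (verts φ).length))
  have hale := le_indepNum_of_part (G := (redGraph φ).induce (I : Set (Fin (verts φ).length)))
    hw (fun v => (hpart v).2)
  have hsum : ∑ v ∈ I, (red φ).x v = (a * w + 1 : ℚ) / 3 := by
    simp only [red, Finset.sum_const, nsmul_eq_mul]
    rw [hIcard]
    push_cast
    ring
  have hsum' : ((a : ℚ)) < (a * w + 1 : ℚ) / 3 := by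
    refine lt_of_le_of_lt ?_ (hsum ▸ hlt)
    exact_mod_cast hale
  have hw3 : 3 ≤ w := by
    by_contra hcon
    have hw2 : w = 2 := by omega
    subst hw2
    have ha' : (2 : ℚ) ≤ a := by exact_mod_cast ha
    push_cast at hsum'
    linarith
  have hw4 : w < 4 := by
    by_contra hcon
    obtain ⟨v⟩ := hne
    obtain ⟨c, hc⟩ := (hpart v).1
    have h1 := hc ⟨0, by omega⟩
    exact (hL.cliqueFree.mono (by omega : 4 ≤ w)) _ h1
  have hw' : w = 3 := by omega
  subst hw'
  obtain ⟨s1, s2, s3⟩ := hL.sound ha hcard (fun v => (hpart v).1) (fun v => (hpart v).2)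
  refine ⟨?_, ?_, ?_⟩
  · intro u hu v hv e
    have := s1 ⟨u, hu⟩ ⟨v, hv⟩ e
    exact congrArg Subtype.val this
  · intro t ht
    obtain ⟨u, hu⟩ := s2 t ht
    exact ⟨u.1, u.2, hu⟩
  · intro u hu v hv
    exact s3 ⟨u, hu⟩ ⟨v, hv⟩

theorem violates_of_goodSel {φ : CNF ν} {I : Finset (Fin (verts φ).length)}
    (h : GoodSel φ I) : (red φ).Violates I := by
  classical
  obtain ⟨h1, h2, h3⟩ := h
  have hL := (redGraph_layered φ).induce (I : Set (Fin (verts φ).length))
  have inj : ∀ u v : ((I : Set (Fin (verts φ).length)) : Type),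
      ((verts φ)[u.1]).1 = ((verts φ)[v.1]).1 → u = v :=
    fun u v e => Subtype.ext (h1 u.1 u.2 v.1 v.2 e)
  have ex : ∀ t, t < 6 * φ.length + 7 → ∃ u : ((I : Set (Fin (verts φ).length)) : Type),
      ((verts φ)[u.1]).1 = t := by
    intro t ht
    obtain ⟨u, hu, e⟩ := h2 t ht
    exact ⟨⟨u, hu⟩, e⟩
  have nc : ∀ u v : ((I : Set (Fin (verts φ).length)) : Type),
      ¬ Conf (verts φ)[u.1] (verts φ)[v.1] := fun u v => h3 u.1 u.2 v.1 v.2
  have hcard := hL.card_eq inj ex
  have hcomp := hL.complete inj ex nc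
  have hne : Nonempty ((I : Set (Fin (verts φ).length)) : Type) := by
    rw [← Fintype.card_pos_iff, hcard]; omega
  refine ⟨⟨2 * φ.length + 2, 3, by omega, by omega, hcard, hcomp⟩, ?_⟩
  have hle := indepNum_le_of_part (G := (redGraph φ).induce (I : Set (Fin (verts φ).length)))
    (by omega) (by omega) (fun v => (hcomp v).1)
  have hIcard : I.card = (2 * φ.length + 2) * 3 + 1 := by
    rw [← hcard]
    simp
  have hsum : ∑ v ∈ I, (red φ).x v = (2 * φ.length + 2 : ℚ) + 1 / 3 := by
    simp only [red, Finset.sum_const, nsmul_eq_mul]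
    rw [hIcard]
    push_cast
    ring
  have hle' : ((((redGraph φ).induce (I : Set (Fin (verts φ).length))).indepNum : ℕ) : ℚ) ≤
      (2 * φ.length + 2 : ℚ) := by
    exact_mod_cast hle
  refine lt_of_le_of_lt hle' (lt_of_lt_of_eq ?_ hsum.symm)
  linarith

/-- Correctness of the reduction. -/
theorem red_correct (φ : CNF ν) : φ.Satisfiable ↔ ∃ I, (red φ).Violates I := by
  constructor
  · intro h
    obtain ⟨I, hI⟩ := goodSel_of_sat h
    exact ⟨I, violates_of_goodSel hI⟩
  · rintro ⟨I, hI⟩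
    exact sat_of_goodSel (goodSel_of_violates hI)

end Pool.Agent.PartSep
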