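import Pool.Agent.Lib_MP_42fe4d_lc.Complete

namespace Pool.Agent.PartSep

variable {ν : Type}

/-- vertex descriptors of the block of clause number `j` -/
def blockVerts (j : ℕ) (c : List (Lit ν)) : List (ℕ × Option (Lit ν)) :=
  c.map (fun l => (6 * j, some l)) ++
    [(6 * j + 1, none), (6 * j + 2, none), (6 * j + 3, none), (6 * j + 4, none), (6 * j + 5, none)]

/-- vertex descriptors of the final block -/
def tailVerts (j : ℕ) : List (ℕ × Option (Lit ν)) :=
  [(6 * j, none), (6 * j + 1, none), (6 * j + 2, none), (6 * j + 3, none), (6 * j + 4, none),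
    (6 * j + 5, none), (6 * j + 6, none)]

def vertsFrom (j : ℕ) : CNF ν → List (ℕ × Option (Lit ν))
  | [] => tailVerts j
  | c :: φ => blockVerts j c ++ vertsFrom (j + 1) φ

theorem vertsFrom_lt {j : ℕ} {φ : CNF ν} : ∀ p ∈ vertsFrom j φ,
    6 * j ≤ p.1 ∧ p.1 < 6 * (j + φ.length) + 7 := by
  induction φ generalizing j with
  | nil =>
    intro p hp
    simp only [vertsFrom, tailVerts, List.mem_cons, List.not_mem_nil, or_false] at hp
    rcases hp with h | h | h | h | h | h | h <;> subst h <;> simp only [List.length_nil] <;> omega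
  | cons c φ ih =>
    intro p hp
    simp only [vertsFrom, blockVerts, List.mem_append, List.mem_map, List.mem_cons,
      List.not_mem_nil, or_false] at hp
    simp only [List.length_cons]
    rcases hp with (⟨l, hl, h⟩ | h | h | h | h | h) | h
    · subst h; simp only; omega
    · subst h; simp only; omega
    · subst h; simp only; omega
    · subst h; simp only; omega
    · subst h; simp only; omega
    · subst h; simp only; omega
    · have := ih p h
      omega

theorem vertsFrom_some {j : ℕ} {φ : CNF ν} : ∀ p ∈ vertsFrom j φ, ∀ l, p.2 = some l →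
    ∃ k c, φ[k]? = some c ∧ p.1 = 6 * (j + k) ∧ l ∈ c := by
  induction φ generalizing j with
  | nil =>
    intro p hp l hl
    simp only [vertsFrom, tailVerts, List.mem_cons, List.not_mem_nil, or_false] at hp
    rcases hp with h | h | h | h | h | h | h <;> subst h <;> simp at hl
  | cons c φ ih =>
    intro p hp l hl
    simp only [vertsFrom, blockVerts, List.mem_append, List.mem_map, List.mem_cons,
      List.not_mem_nil, or_false] at hp
    rcases hp with (⟨l', hl', h⟩ | h | h | h | h | h) | h
    · subst h
      simp only [Option.some.injEq] at hl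
      subst hl
      exact ⟨0, c, by simp, by simp, hl'⟩
    · subst h; simp at hl
    · subst h; simp at hl
    · subst h; simp at hl
    · subst h; simp at hl
    · subst h; simp at hl
    · obtain ⟨k, c', h1, h2, h3⟩ := ih p h l hl
      exact ⟨k + 1, c', by simpa using h1, by omega, h3⟩

theorem vertsFrom_none {j : ℕ} {φ : CNF ν} : ∀ p ∈ vertsFrom j φ, p.2 = none →
    ∀ k < φ.length, p.1 ≠ 6 * (j + k) := by
  induction φ generalizing j with
  | nil =>
    intro p hp hl k hk
    simp at hk
  | cons c φ ih =>
    intro p hp hl k hk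
    simp only [List.length_cons] at hk
    simp only [vertsFrom, blockVerts, List.mem_append, List.mem_map, List.mem_cons,
      List.not_mem_nil, or_false] at hp
    rcases hp with (⟨l', hl', h⟩ | h | h | h | h | h) | h
    · subst h; simp at hl
    · subst h; simp only; omega
    · subst h; simp only; omega
    · subst h; simp only; omega
    · subst h; simp only; omega
    · subst h; simp only; omega
    · have h1 := ih p h hl
      have h2 := vertsFrom_lt p h
      rcases Nat.eq_zero_or_pos k with hk0 | hk0
      · omega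
      · have := h1 (k - 1) (by omega)
        omega

theorem mem_vertsFrom_some {j : ℕ} {φ : CNF ν} {k : ℕ} {c : List (Lit ν)} {l : Lit ν}
    (h : φ[k]? = some c) (hl : l ∈ c) : (6 * (j + k), some l) ∈ vertsFrom j φ := by
  induction φ generalizing j k with
  | nil => simp at h
  | cons c' φ ih =>
    simp only [vertsFrom, blockVerts, List.mem_append]
    cases k with
    | zero =>
      simp only [List.getElem?_cons_zero, Option.some.injEq] at h
      subst h
      left; left
      exact List.mem_map.2 ⟨l, hl, by simp⟩
    | succ k =>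
      right
      have := ih (j := j + 1) (k := k) (by simpa using h)
      have e : 6 * (j + 1 + k) = 6 * (j + (k + 1)) := by ring
      rwa [e] at this

theorem mem_vertsFrom_none {j : ℕ} {φ : CNF ν} {t : ℕ} (h1 : 6 * j ≤ t)
    (h2 : t < 6 * (j + φ.length) + 7) (h3 : ∀ k < φ.length, t ≠ 6 * (j + k)) :
    (t, none) ∈ vertsFrom j φ := by
  induction φ generalizing j with
  | nil =>
    simp only [List.length_nil] at h2
    simp only [vertsFrom, tailVerts, List.mem_cons, List.not_mem_nil, or_false, Prod.mk.injEq,
      and_true]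
    omega
  | cons c φ ih =>
    simp only [List.length_cons] at h2 h3
    simp only [vertsFrom, blockVerts, List.mem_append, List.mem_map, List.mem_cons,
      List.not_mem_nil, or_false, Prod.mk.injEq, and_true, reduceCtorEq, and_false, exists_false,
      false_or]
    by_cases h : t < 6 * (j + 1)
    · left
      have := h3 0 (by omega)
      omega
    · right
      apply ih (by omega) (by omega)
      intro k hk
      have := h3 (k + 1) (by omega)
      omega

theorem vertsFrom_pairwise {j : ℕ} {φ : CNF ν} :
    (vertsFrom j φ).Pairwise (fun p q => p.1 < q.1 ∨ (p.1 = q.1 ∧ p.2.isSome)) := by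
  induction φ generalizing j with
  | nil =>
    simp only [vertsFrom, tailVerts]
    simp
  | cons c φ ih =>
    simp only [vertsFrom, blockVerts]
    rw [List.pairwise_append, List.pairwise_append]
    refine ⟨⟨?_, ?_, ?_⟩, ih, ?_⟩
    · rw [List.pairwise_map]
      exact List.pairwise_of_forall (by simp)
    · simp
    · intro a ha b hb
      simp only [List.mem_map] at ha
      obtain ⟨l, hl, rfl⟩ := ha
      simp only [List.mem_cons, List.not_mem_nil, or_false] at hb
      rcases hb with h | h | h | h | h <;> subst h <;> simp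
    · intro a ha b hb
      have h1 := (vertsFrom_lt b hb).1
      left
      simp only [List.mem_append, List.mem_map, List.mem_cons, List.not_mem_nil, or_false] at ha
      rcases ha with (⟨l', hl', h⟩ | h | h | h | h | h) <;> subst h <;> simp only <;> omega

/-- The vertices of the graph built from `φ`, in order: each is given by its layer and, for the
vertices of a literal layer, its literal. -/
def verts (φ : CNF ν) : List (ℕ × Option (Lit ν)) := vertsFrom 0 φ

/-- conflicting descriptors: contradictory literals in different layers -/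
def Conf (p q : ℕ × Option (Lit ν)) : Prop :=
  p.1 ≠ q.1 ∧ ∃ x b, p.2 = some (x, b) ∧ q.2 = some (x, !b)

/-- adjacency of descriptors -/
def VAdj (N : ℕ) (p q : ℕ × Option (Lit ν)) : Prop :=
  Strip N p.1 q.1 ∨ Conf p q

theorem Conf.symm {p q : ℕ × Option (Lit ν)} (h : Conf p q) : Conf q p := by
  obtain ⟨h1, x, b, h2, h3⟩ := h
  exact ⟨h1.symm, x, !b, h3, by simpa using h2⟩

/-- the graph built from `φ` -/
def redGraph (φ : CNF ν) : SimpleGraph (Fin (verts φ).length) where
  Adj i j := VAdj (6 * φ.length + 7) (verts φ)[i] (verts φ)[j]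
  symm := ⟨by
    rintro i j (h | h)
    · exact Or.inl h.symm
    · exact Or.inr h.symm⟩
  loopless := ⟨by
    rintro i (h | h)
    · exact not_strip_self _ _ h
    · exact h.1 rfl⟩

/-- the instance of the separation problem built from `φ` -/
def red (φ : CNF ν) : SepInstance where
  n := (verts φ).length
  G := redGraph φ
  x := fun _ => 1 / 3
  x_mem := fun _ => by norm_num

theorem redGraph_layered (φ : CNF ν) :
    Layered (redGraph φ) φ.length (fun i => ((verts φ)[i]).1)
      (fun i j => Conf (verts φ)[i] (verts φ)[j]) where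
  lay_lt v := by
    have := (vertsFrom_lt (j := 0) (φ := φ) _ (List.getElem_mem v.2)).2
    simpa using this
  adj_iff u v := Iff.rfl
  conf_symm u v h := h.symm
  conf_lay u v h := by
    obtain ⟨h1, x, b, h2, h3⟩ := h
    obtain ⟨k, c, hk, hk1, _⟩ := vertsFrom_some (j := 0) (φ := φ) _ (List.getElem_mem u.2) _ h2
    obtain ⟨k', c', hk', hk1', _⟩ := vertsFrom_some (j := 0) (φ := φ) _ (List.getElem_mem v.2) _ h3
    have hkl : k < φ.length := (List.getElem?_eq_some_iff.1 hk).1
    have hkl' : k' < φ.length := (List.getElem?_eq_some_iff.1 hk').1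
    have e1 : ((verts φ)[u]).1 = 6 * k := by simpa using hk1
    have e2 : ((verts φ)[v]).1 = 6 * k' := by simpa using hk1'
    refine ⟨k, k', hkl, hkl', ?_, e1, e2⟩
    rintro rfl
    exact h1 (e1.trans e2.symm)
  conf_tri u v w h1 h2 h3 := by
    obtain ⟨_, x, b, g2, g3⟩ := h1
    obtain ⟨_, x', b', h4, h5⟩ := h2
    obtain ⟨_, x'', b'', h6, h7⟩ := h3
    rw [g3] at h4
    rw [g2] at h6
    rw [h5] at h7
    simp only [Option.some.injEq, Prod.mk.injEq] at h4 h6 h7
    obtain ⟨rfl, h4⟩ := h4
    obtain ⟨_, h6⟩ := h6
    obtain ⟨_, h7⟩ := h7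
    cases b <;> cases b' <;> cases b'' <;> simp_all
  single u v h1 h2 := by
    have hp := vertsFrom_pairwise (j := 0) (φ := φ)
    have hp' : ∀ (i j : ℕ) (hi : i < (verts φ).length) (hj : j < (verts φ).length), i < j →
        ((verts φ)[i]).1 = ((verts φ)[j]).1 → (∀ k < φ.length, ((verts φ)[i]).1 ≠ 6 * k) →
        False := by
      intro i j hi hj hij e hne
      have := List.pairwise_iff_getElem.1 hp i j hi hj hij
      rcases this with h | h
      · have h' : ((verts φ)[i]).1 < ((verts φ)[j]).1 := h
        omega
      · obtain ⟨l, hl⟩ := Option.isSome_iff_exists.1 h.2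
        obtain ⟨k, c, hk, hk1, _⟩ := vertsFrom_some (j := 0) (φ := φ) _ (List.getElem_mem hi) l hl
        have hkl : k < φ.length := (List.getElem?_eq_some_iff.1 hk).1
        apply hne k hkl
        simpa using hk1
    rcases lt_trichotomy u.1 v.1 with h | h | h
    · exact (hp' u.1 v.1 u.2 v.2 h h1 h2).elim
    · exact Fin.ext h
    · refine (hp' v.1 u.1 v.2 u.2 h h1.symm ?_).elim
      intro k hk e
      exact h2 k hk (h1.trans e)

/-- A choice of one vertex in each layer without conflicts. -/
def GoodSel (φ : CNF ν) (I : Finset (Fin (verts φ).length)) : Prop :=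
  (∀ u ∈ I, ∀ v ∈ I, ((verts φ)[u]).1 = ((verts φ)[v]).1 → u = v) ∧
  (∀ t, t < 6 * φ.length + 7 → ∃ u ∈ I, ((verts φ)[u]).1 = t) ∧
  (∀ u ∈ I, ∀ v ∈ I, ¬ Conf (verts φ)[u] (verts φ)[v])

theorem sat_of_goodSel {φ : CNF ν} {I : Finset (Fin (verts φ).length)} (h : GoodSel φ I) :
    φ.Satisfiable := by
  classical
  obtain ⟨h1, h2, h3⟩ := h
  refine ⟨fun x => decide (∃ u ∈ I, ((verts φ)[u]).2 = some (x, true)), ?_⟩
  intro c hc
  obtain ⟨k, hk, hkc⟩ := List.getElem_of_mem hc
  obtain ⟨u, hu, hlu⟩ := h2 (6 * k) (by omega)
  have hum : (verts φ)[u] ∈ vertsFrom 0 φ := List.getElem_mem u.2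
  cases hlab : ((verts φ)[u]).2 with
  | none =>
    have := vertsFrom_none (j := 0) _ hum hlab k hk
    rw [hlu] at this
    simp at this
  | some l =>
    obtain ⟨k', c', hk', hlu', hl⟩ := vertsFrom_some (j := 0) _ hum l hlab
    have hkk : k' = k := by
      rw [hlu] at hlu'; omega
    subst hkk
    have hcc : c' = c := by
      rw [List.getElem?_eq_getElem hk] at hk'
      simp only [Option.some.injEq] at hk'
      rw [← hk', hkc]
    subst hcc
    refine ⟨l, hl, ?_⟩
    obtain ⟨x, b⟩ := l
    cases b with
    | true =>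
      simp only [decide_eq_true_eq]
      exact ⟨u, hu, hlab⟩
    | false =>
      simp only [decide_eq_false_iff_not]
      rintro ⟨u', hu', hlab'⟩
      by_cases hl : ((verts φ)[u]).1 = ((verts φ)[u']).1
      · have := h1 u hu u' hu' hl
        subst this
        rw [hlab] at hlab'
        simp at hlab'
      · exact h3 u hu u' hu' ⟨hl, x, false, hlab, hlab'⟩

theorem goodSel_of_sat {φ : CNF ν} (h : φ.Satisfiable) : ∃ I, GoodSel φ I := by
  classical
  obtain ⟨τ, hτ⟩ := h
  have hg : ∀ k, k < φ.length → ∃ u : Fin (verts φ).length, ((verts φ)[u]).1 = 6 * k ∧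
      ∃ l, ((verts φ)[u]).2 = some l ∧ τ l.1 = l.2 := by
    intro k hk
    obtain ⟨l, hl, hτl⟩ := hτ φ[k] (List.getElem_mem hk)
    have := mem_vertsFrom_some (j := 0) (φ := φ) (k := k) (c := φ[k]) (l := l)
      (List.getElem?_eq_getElem hk) hl
    obtain ⟨i, hi, hi'⟩ := List.getElem_of_mem this
    exact ⟨⟨i, hi⟩, (congrArg Prod.fst hi').trans (by simp), l, congrArg Prod.snd hi', hτl⟩
  have hpos : Nonempty (Fin (verts φ).length) := by
    have := mem_vertsFrom_none (j := 0) (φ := φ) (t := 6 * φ.length) (by omega) (by omega)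
      (by intro k hk; omega)
    obtain ⟨i, hi, hi'⟩ := List.getElem_of_mem this
    exact ⟨⟨i, hi⟩⟩
  choose! g hg1 hg2 using hg
  have hnl : ∀ u : Fin (verts φ).length, ((verts φ)[u]).2 = none →
      ∀ k < φ.length, ((verts φ)[u]).1 ≠ 6 * k := by
    intro u hu k hk
    have := vertsFrom_none (j := 0) (φ := φ) _ (List.getElem_mem u.2) hu k hk
    simpa using this
  refine ⟨Finset.univ.filter
    (fun u => ((verts φ)[u]).2 = none ∨ ∃ k < φ.length, u = g k), ?_, ?_, ?_⟩
  · intro u hu v hv huv
    simp only [Finset.mem_filter, Finset.mem_univ, true_and] at hu hv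
    rcases hu with hu | ⟨k, hk, rfl⟩
    · exact (redGraph_layered φ).single u v huv (hnl u hu)
    · rcases hv with hv | ⟨k', hk', rfl⟩
      · exact ((redGraph_layered φ).single v (g k) huv.symm (hnl v hv)).symm
      · have h1 := hg1 k hk
        have h2 := hg1 k' hk'
        have : k = k' := by omega
        rw [this]
  · intro t ht
    by_cases hk : ∃ k < φ.length, t = 6 * k
    · obtain ⟨k, hk, rfl⟩ := hk
      exact ⟨g k, by simp only [Finset.mem_filter, Finset.mem_univ, true_and]
                     exact Or.inr ⟨k, hk, rfl⟩, hg1 k hk⟩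
    · push Not at hk
      have := mem_vertsFrom_none (j := 0) (φ := φ) (t := t) (by omega) (by omega)
        (by intro k hk'; simpa using hk k hk')
      obtain ⟨i, hi, hi'⟩ := List.getElem_of_mem this
      refine ⟨⟨i, hi⟩, ?_, congrArg Prod.fst hi'⟩
      simp only [Finset.mem_filter, Finset.mem_univ, true_and]
      exact Or.inl (congrArg Prod.snd hi')
  · intro u hu v hv hconf
    obtain ⟨_, x, b, h2, h3⟩ := hconf
    simp only [Finset.mem_filter, Finset.mem_univ, true_and] at hu hv
    have hu' : ∃ k < φ.length, u = g k := by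
      rcases hu with hu | hu
      · rw [hu] at h2; simp at h2
      · exact hu
    have hv' : ∃ k < φ.length, v = g k := by
      rcases hv with hv | hv
      · rw [hv] at h3; simp at h3
      · exact hv
    obtain ⟨k, hk, rfl⟩ := hu'
    obtain ⟨k', hk', rfl⟩ := hv'
    obtain ⟨l, hl, hτl⟩ := hg2 k hk
    obtain ⟨l', hl', hτl'⟩ := hg2 k' hk'
    rw [h2] at hl
    rw [h3] at hl'
    simp only [Option.some.injEq] at hl hl'
    subst hl hl'
    simp only at hτl hτl'
    rw [hτl] at hτl'
    simp at hτl'

end Pool.Agent.PartSep
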