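import Pool.Agent.Lib_MP_42fe4d_lc.Strip

namespace Pool.Agent.PartSep

/-- A layered graph: `6 * M + 7` cyclically arranged layers, all strip edges, and some conflict
edges between different literal layers `6 * i`. -/
structure Layered {V : Type} (G : SimpleGraph V) (M : ℕ) (lay : V → ℕ)
    (conf : V → V → Prop) : Prop where
  lay_lt : ∀ v, lay v < 6 * M + 7
  adj_iff : ∀ u v, G.Adj u v ↔ Strip (6 * M + 7) (lay u) (lay v) ∨ conf u v
  conf_symm : ∀ u v, conf u v → conf v u
  conf_lay : ∀ u v, conf u v → ∃ i j, i < M ∧ j < M ∧ i ≠ j ∧ lay u = 6 * i ∧ lay v = 6 * j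
  conf_tri : ∀ u v w, conf u v → conf v w → conf u w → False
  single : ∀ u v, lay u = lay v → (∀ i < M, lay u ≠ 6 * i) → u = v

variable {V : Type} {G : SimpleGraph V} {M : ℕ} {lay : V → ℕ} {conf : V → V → Prop}

theorem Layered.induce (h : Layered G M lay conf) (s : Set V) :
    Layered (G.induce s) M (fun v => lay v) (fun u v => conf u v) where
  lay_lt v := h.lay_lt v
  adj_iff u v := by simpa using h.adj_iff u v
  conf_symm u v := h.conf_symm u v
  conf_lay u v := h.conf_lay u v
  conf_tri u v w := h.conf_tri u v w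
  single u v h1 h2 := Subtype.ext (h.single u v h1 h2)

theorem Layered.lay_ne (h : Layered G M lay conf) {u v : V} (huv : G.Adj u v) :
    lay u ≠ lay v := by
  rcases (h.adj_iff u v).1 huv with h1 | h1
  · unfold Strip at h1; omega
  · obtain ⟨i, j, hi, hj, hij, e1, e2⟩ := h.conf_lay u v h1
    omega

/-- In a triangle, an edge is a strip edge. -/
theorem Layered.strip_of_tri (h : Layered G M lay conf) {u v w : V} (huv : G.Adj u v)
    (huw : G.Adj u w) (hvw : G.Adj v w) : Strip (6 * M + 7) (lay u) (lay v) := by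
  rcases (h.adj_iff u v).1 huv with h1 | h1
  · exact h1
  exfalso
  obtain ⟨i, j, hi, hj, hij, e1, e2⟩ := h.conf_lay u v h1
  have hu := h.lay_lt u
  have hv := h.lay_lt v
  have hw := h.lay_lt w
  rcases (h.adj_iff u w).1 huw with h2 | h2
  · rcases (h.adj_iff v w).1 hvw with h3 | h3
    · unfold Strip at h2 h3
      omega
    · obtain ⟨i', j', hi', hj', hij', e1', e2'⟩ := h.conf_lay v w h3
      unfold Strip at h2
      omega
  · rcases (h.adj_iff v w).1 hvw with h3 | h3
    · obtain ⟨i', j', hi', hj', hij', e1', e2'⟩ := h.conf_lay u w h2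
      unfold Strip at h3
      omega
    · exact h.conf_tri u v w h1 h3 h2

theorem Layered.cliqueFree (h : Layered G M lay conf) : G.CliqueFree 4 := by
  classical
  intro s hs
  obtain ⟨a, t, hat, rfl, ht⟩ := Finset.card_eq_succ.1 hs.card_eq
  obtain ⟨b, c, d, nbc, nbd, ncd, rfl⟩ := Finset.card_eq_three.1 ht
  simp only [Finset.mem_insert, Finset.mem_singleton, not_or] at hat
  have hcl := hs.isClique
  have hab : G.Adj a b := hcl (by simp) (by simp) hat.1
  have hac : G.Adj a c := hcl (by simp) (by simp) hat.2.1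
  have had : G.Adj a d := hcl (by simp) (by simp) hat.2.2
  have hbc : G.Adj b c := hcl (by simp) (by simp) nbc
  have hbd : G.Adj b d := hcl (by simp) (by simp) nbd
  have hcd : G.Adj c d := hcl (by simp) (by simp) ncd
  exact no_K4 (by omega) (h.lay_lt a) (h.lay_lt b) (h.lay_lt c) (h.lay_lt d)
    (h.strip_of_tri hab hac hbc) (h.strip_of_tri hac hab hbc.symm)
    (h.strip_of_tri had hab hbd.symm) (h.strip_of_tri hbc hab.symm hac.symm)
    (h.strip_of_tri hbd hbc hcd.symm) (h.strip_of_tri hcd hbc.symm hbd.symm)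

theorem all_of_prv {N : ℕ} {P : ℕ → Prop} (hP : ∀ a, a < N → P a → P (prv N a)) {p : ℕ}
    (hp : p < N) (h : P p) : ∀ t, t < N → P t := by
  have down : ∀ q, q < N → P q → ∀ k, k ≤ q → P (q - k) := by
    intro q hq hPq k
    induction k with
    | zero => intro _; simpa using hPq
    | succ k ih =>
      intro hk
      have h1 := hP (q - k) (by omega) (ih (by omega))
      have h2 : prv N (q - k) = q - (k + 1) := by
        unfold prv; split_ifs <;> omega
      rwa [h2] at h1
  have h0 : P 0 := by simpa using down p hp h p le_rfl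
  have hlast : P (N - 1) := by
    have := hP 0 (by omega) h0
    simpa [prv] using this
  intro t ht
  have := down (N - 1) (by omega) hlast (N - 1 - t) (by omega)
  have e : N - 1 - (N - 1 - t) = t := by omega
  rwa [e] at this

section Part

variable [Fintype V] [DecidableEq V]

/-- The triangle containing `u` in the clique partition of `H - v`. -/
theorem exists_tri (h : Layered G M lay conf) {a : ℕ} {v : V} {c : V → Fin a}
    (hc : ∀ i, G.IsNClique 3 (Finset.univ.filter fun u => u ≠ v ∧ c u = i)) {u : V} (hu : u ≠ v) :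
    ∃ p q, p ≠ v ∧ q ≠ v ∧ c p = c u ∧ c q = c u ∧ Strip (6 * M + 7) (lay u) (lay p) ∧
      Strip (6 * M + 7) (lay u) (lay q) ∧ Strip (6 * M + 7) (lay p) (lay q) := by
  have h1 := hc (c u)
  rw [SimpleGraph.is3Clique_iff] at h1
  obtain ⟨x, y, z, hxy, hxz, hyz, e⟩ := h1
  have hmem : ∀ t, t ∈ ({x, y, z} : Finset V) ↔ (t ≠ v ∧ c t = c u) := by
    intro t; rw [← e]; simp
  have hu' : u ∈ ({x, y, z} : Finset V) := (hmem u).2 ⟨hu, rfl⟩
  have hx := (hmem x).1 (by simp)
  have hy := (hmem y).1 (by simp)
  have hz := (hmem z).1 (by simp)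
  have sxy := h.strip_of_tri hxy hxz hyz
  have sxz := h.strip_of_tri hxz hxy hyz.symm
  have syz := h.strip_of_tri hyz hxy.symm hxz.symm
  simp only [Finset.mem_insert, Finset.mem_singleton] at hu'
  rcases hu' with rfl | rfl | rfl
  · exact ⟨y, z, hy.1, hz.1, hy.2, hz.2, sxy, sxz, syz⟩
  · exact ⟨x, z, hx.1, hz.1, hx.2, hz.2, sxy.symm, syz, sxz⟩
  · exact ⟨x, y, hx.1, hy.1, hx.2, hy.2, sxz.symm, syz.symm, sxy⟩

theorem color_ne {a b : ℕ} {v : V} {c : V → Fin a}
    (hc : ∀ i, G.IsNIndepSet b (Finset.univ.filter fun u => u ≠ v ∧ c u = i)) {x y : V}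
    (hx : x ≠ v) (hy : y ≠ v) (hxy : G.Adj x y) : c x ≠ c y := by
  intro e
  have h1 := (hc (c x)).isIndepSet
  have hx' : x ∈ ((Finset.univ.filter fun u => u ≠ v ∧ c u = c x : Finset V) : Set V) := by
    simp [hx]
  have hy' : y ∈ ((Finset.univ.filter fun u => u ≠ v ∧ c u = c x : Finset V) : Set V) := by
    simp [hy, e]
  exact h1 hx' hy' hxy.ne hxy

theorem same_of_clique {a b : ℕ} {v : V} {c : V → Fin a}
    (hc : ∀ i, G.IsNClique b (Finset.univ.filter fun u => u ≠ v ∧ c u = i)) {x y : V}
    (hx : x ≠ v) (hy : y ≠ v) (hxy : x ≠ y) (hne : ¬ G.Adj x y) : c x ≠ c y := by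
  intro e
  have h1 := (hc (c x)).isClique
  have hx' : x ∈ ((Finset.univ.filter fun u => u ≠ v ∧ c u = c x : Finset V) : Set V) := by
    simp [hx]
  have hy' : y ∈ ((Finset.univ.filter fun u => u ≠ v ∧ c u = c x : Finset V) : Set V) := by
    simp [hy, e]
  exact hne (h1 hx' hy' hxy)

/-- Soundness of the construction: an `(a, 3)`-partitionable layered graph has exactly one vertex
in each layer and no conflict edges. -/
theorem Layered.sound (h : Layered G M lay conf) {a : ℕ} (ha : 2 ≤ a)
    (hcard : Fintype.card V = a * 3 + 1)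
    (hK : ∀ v : V, ∃ c : V → Fin a,
      ∀ i, G.IsNClique 3 (Finset.univ.filter fun u => u ≠ v ∧ c u = i))
    (hS : ∀ v : V, ∃ c : V → Fin 3,
      ∀ i, G.IsNIndepSet a (Finset.univ.filter fun u => u ≠ v ∧ c u = i)) :
    (∀ u v, lay u = lay v → u = v) ∧ (∀ t, t < 6 * M + 7 → ∃ u, lay u = t) ∧
      ∀ u v, ¬ conf u v := by
  have other : ∀ u u' : V, ∃ v, v ≠ u ∧ v ≠ u' := by
    intro u u'
    by_contra hcon
    push Not at hcon
    have : (Finset.univ : Finset V) ⊆ {u, u'} := by
      intro v _
      simp only [Finset.mem_insert, Finset.mem_singleton]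
      by_cases hv : v = u
      · exact Or.inl hv
      · exact Or.inr (hcon v hv)
    have h2 := Finset.card_le_card this
    have h3 : ({u, u'} : Finset V).card ≤ 2 := Finset.card_le_two
    rw [Finset.card_univ, hcard] at h2
    omega
  have inj : ∀ u u', lay u = lay u' → u = u' := by
    intro u u' huu'
    by_contra hne
    have hlit : ∃ i < M, lay u = 6 * i := by
      by_contra hcon
      push Not at hcon
      exact hne (h.single u u' huu' hcon)
    obtain ⟨i, hi, hui⟩ := hlit
    -- choose v
    have hv : ∃ v, v ≠ u ∧ v ≠ u' ∧ ∀ z, lay z = nxt (6 * M + 7) (lay u) → z = v := by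
      by_cases hex : ∃ v, lay v = nxt (6 * M + 7) (lay u)
      · obtain ⟨v, hv⟩ := hex
        have hul := h.lay_lt u
        refine ⟨v, ?_, ?_, ?_⟩
        · rintro rfl
          unfold nxt at hv; split_ifs at hv <;> omega
        · rintro rfl
          rw [← huu'] at hv
          unfold nxt at hv; split_ifs at hv <;> omega
        · intro z hz
          apply h.single z v (hz.trans hv.symm)
          intro i' hi'
          rw [hz]
          unfold nxt; split_ifs <;> omega
      · push Not at hex
        obtain ⟨v, h1, h2⟩ := other u u'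
        exact ⟨v, h1, h2, fun z hz => absurd hz (hex z)⟩
    obtain ⟨v, hvu, hvu', hvz⟩ := hv
    obtain ⟨c, hc⟩ := hK v
    have hnadj : ¬ G.Adj u u' := fun hadj => h.lay_ne hadj huu'
    have hcc : c u ≠ c u' := same_of_clique hc hvu.symm hvu'.symm hne hnadj
    have hprev : ∀ y, y ≠ v → lay y = lay u → ∃ p, c p = c y ∧ lay p = prv (6 * M + 7) (lay u) := by
      intro y hy hly
      obtain ⟨p, q, hp, hq, cp, cq, s1, s2, s3⟩ := exists_tri h hc hy
      rw [hly] at s1 s2
      have := tri_of_no_next (by omega) (h.lay_lt u) (h.lay_lt p) (h.lay_lt q) s1 s2 s3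
        (fun e => hp (hvz p e)) (fun e => hq (hvz q e))
      rcases this with e | e
      · exact ⟨p, cp, e⟩
      · exact ⟨q, cq, e⟩
    obtain ⟨p, cp, lp⟩ := hprev u hvu.symm rfl
    obtain ⟨p', cp', lp'⟩ := hprev u' hvu'.symm huu'.symm
    have hpp : p = p' := by
      apply h.single p p' (lp.trans lp'.symm)
      intro i' hi'
      rw [lp, hui]
      unfold prv; split_ifs <;> omega
    apply hcc
    rw [← cp, ← cp', hpp]
  have ex : ∀ t, t < 6 * M + 7 → ∃ u, lay u = t := by
    have hV : Nonempty V := by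
      rw [← Fintype.card_pos_iff, hcard]; omega
    obtain ⟨u0⟩ := hV
    refine all_of_prv (N := 6 * M + 7) (P := fun t => ∃ u, lay u = t) (p := lay u0) ?_
      (h.lay_lt u0) ⟨u0, rfl⟩
    rintro t ht ⟨u, rfl⟩
    by_contra hno
    push Not at hno
    have hv : ∃ v, v ≠ u ∧ ∀ z, lay z = nxt (6 * M + 7) (lay u) → z = v := by
      by_cases hex : ∃ v, lay v = nxt (6 * M + 7) (lay u)
      · obtain ⟨v, hv⟩ := hex
        refine ⟨v, ?_, fun z hz => inj z v (hz.trans hv.symm)⟩
        rintro rfl
        unfold nxt at hv; split_ifs at hv <;> omega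
      · push Not at hex
        obtain ⟨v, h1, h2⟩ := other u u
        exact ⟨v, h1, fun z hz => absurd hz (hex z)⟩
    obtain ⟨v, hvu, hvz⟩ := hv
    obtain ⟨c, hc⟩ := hK v
    obtain ⟨p, q, hp, hq, cp, cq, s1, s2, s3⟩ := exists_tri h hc hvu.symm
    have := tri_of_no_next (by omega) (h.lay_lt u) (h.lay_lt p) (h.lay_lt q) s1 s2 s3
      (fun e => hp (hvz p e)) (fun e => hq (hvz q e))
    rcases this with e | e
    · exact hno p e
    · exact hno q e
  refine ⟨inj, ex, ?_⟩
  -- no conflicts
  have hV : Nonempty V := by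
    rw [← Fintype.card_pos_iff, hcard]; omega
  choose! g hg using ex
  have key : ∀ u u' i j, i < j → j < M → lay u = 6 * i → lay u' = 6 * j → conf u u' → False := by
    intro u u' i j hij hj hui huj hconf
    obtain ⟨c, hc⟩ := hS (g (6 * M + 6))
    have hne : ∀ t, t < 6 * M + 6 → g t ≠ g (6 * M + 6) := by
      intro t ht e
      have h1 := hg t (by omega)
      have h2 := hg (6 * M + 6) (by omega)
      rw [e] at h1
      omega
    have hadj : ∀ s t, s < t → t ≤ s + 2 → t < 6 * M + 6 → c (g s) ≠ c (g t) := by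
      intro s t hst hts ht
      apply color_ne hc (hne s (by omega)) (hne t ht)
      rw [h.adj_iff]
      left
      rw [hg s (by omega), hg t (by omega)]
      unfold Strip; omega
    have step : ∀ t, t + 3 < 6 * M + 6 → c (g t) = c (g (t + 3)) := by
      intro t ht
      have h01 := hadj t (t + 1) (by omega) (by omega) (by omega)
      have h02 := hadj t (t + 2) (by omega) (by omega) (by omega)
      have h12 := hadj (t + 1) (t + 2) (by omega) (by omega) (by omega)
      have h13 := hadj (t + 1) (t + 3) (by omega) (by omega) (by omega)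
      have h23 := hadj (t + 2) (t + 3) (by omega) (by omega) (by omega)
      generalize c (g t) = c0 at *
      generalize c (g (t + 1)) = c1 at *
      generalize c (g (t + 2)) = c2 at *
      generalize c (g (t + 3)) = c3 at *
      revert c0 c1 c2 c3
      decide
    have steps : ∀ k, 6 * i + 3 * k < 6 * M + 6 → c (g (6 * i)) = c (g (6 * i + 3 * k)) := by
      intro k
      induction k with
      | zero => intro _; rfl
      | succ k ih =>
        intro hk
        rw [ih (by omega), step (6 * i + 3 * k) (by omega)]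
        congr 2
    have e1 : u = g (6 * i) := inj _ _ (by rw [hg _ (by omega), hui])
    have e2 : u' = g (6 * j) := inj _ _ (by rw [hg _ (by omega), huj])
    have e3 := steps (2 * (j - i)) (by omega)
    have e4 : 6 * i + 3 * (2 * (j - i)) = 6 * j := by omega
    rw [e4] at e3
    refine color_ne hc (x := u) (y := u') ?_ ?_ ?_ ?_
    · rw [e1]; exact hne _ (by omega)
    · rw [e2]; exact hne _ (by omega)
    · rw [h.adj_iff]; exact Or.inr hconf
    · rw [e1, e2, e3]
  intro u v huv
  obtain ⟨i, j, hi, hj, hij, e1, e2⟩ := h.conf_lay u v huv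
  rcases lt_or_gt_of_ne hij with hlt | hlt
  · exact key u v i j hlt hj e1 e2 huv
  · exact key v u j i hlt hi e2 e1 (h.conf_symm u v huv)

end Part

end Pool.Agent.PartSep
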