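import Pool.Agent.Lib_MP_42fe4d_lc.Defs

namespace Pool.Agent.PartSep

/-- Layers `a, b < N` are at cyclic distance one or two. -/
def Strip (N a b : ℕ) : Prop :=
  (a < b ∧ (b ≤ a + 2 ∨ a + N ≤ b + 2)) ∨ (b < a ∧ (a ≤ b + 2 ∨ b + N ≤ a + 2))

instance (N a b : ℕ) : Decidable (Strip N a b) := by unfold Strip; infer_instance

theorem Strip.symm {N a b : ℕ} (h : Strip N a b) : Strip N b a := by
  unfold Strip at *; omega

theorem not_strip_self (N a : ℕ) : ¬ Strip N a a := by
  unfold Strip; omega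

/-- cyclic predecessor and successor -/
def nxt (N a : ℕ) : ℕ := if a + 1 = N then 0 else a + 1

def prv (N a : ℕ) : ℕ := if a = 0 then N - 1 else a - 1

theorem tri_of_no_next {N a b c : ℕ} (hN : 7 ≤ N) (ha : a < N) (hb : b < N) (hc : c < N)
    (hab : Strip N a b) (hac : Strip N a c) (hbc : Strip N b c)
    (hb' : b ≠ nxt N a) (hc' : c ≠ nxt N a) : b = prv N a ∨ c = prv N a := by
  unfold Strip nxt prv at *
  split_ifs at * <;> omega

theorem tri_of_no_prev {N a b c : ℕ} (hN : 7 ≤ N) (ha : a < N) (hb : b < N) (hc : c < N)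
    (hab : Strip N a b) (hac : Strip N a c) (hbc : Strip N b c)
    (hb' : b ≠ prv N a) (hc' : c ≠ prv N a) : b = nxt N a ∨ c = nxt N a := by
  unfold Strip nxt prv at *
  split_ifs at * <;> omega

theorem no_K4 {N a b c d : ℕ} (hN : 7 ≤ N) (ha : a < N) (hb : b < N) (hc : c < N) (hd : d < N)
    (hab : Strip N a b) (hac : Strip N a c) (had : Strip N a d)
    (hbc : Strip N b c) (hbd : Strip N b d) (hcd : Strip N c d) : False := by
  unfold Strip at *
  omega

end Pool.Agent.PartSep
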